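import Mathlib
import Pool.Agent.R639.CT.Main

/-!
# An equivariant quotient of the boundary of the free group of rank three

`H` is the free group with basis `x₀, x₁, x₂`. For a boundary point `ξ` (an infinite reduced word)
and `g ∈ H` let `F ξ g` say whether the first letter of `g⁻¹ ξ` is one of `x₀^{±1}, x₁^{±1}`.
`Z` is the image of `F : ∂H → {true, false}^H`. It is a compact space with an action of `H` which is
a convergence action. (It is the boundary of `H` relative to the free factors `⟨x₀, x₁⟩` and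
`⟨x₂⟩`.)
-/

set_option autoImplicit false

namespace Pool.Agent.U627.CT

open Filter Topology Pool.Agent.H322R3.Hyp Pool.Agent.R639.CT FreeGroup

/-- The free group of rank three. -/
abbrev H : Type := FreeGroup (Fin 3)

/-- Its standard basis. -/
abbrev T : Set H := basis 3

/-- The kind of the first letter of the reduced word `x`: `some true` if it is `x₀^{±1}` or
`x₁^{±1}`, `some false` if it is `x₂^{±1}`, and `none` if `x = 1`. -/
def hd (x : H) : Option Bool := x.toWord.head?.map (fun l => decide (l.1 ≠ 2))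

lemma hT : Subgroup.closure T = ⊤ := closure_basis 3

lemma hTfin : T.Finite := finite_basis 3

lemma h00 : (0 : ℝ) ≤ 0 := le_rfl

lemma hyp0 (x y z : H) : min (gprod T 1 x y) (gprod T 1 y z) - 0 ≤ gprod T 1 x z :=
  hyp_basis 3 x y z

lemma gpT (x y : H) : gprod T 1 x y = lcp x.toWord y.toWord := gprod_free x y

lemma wlenT (x : H) : wlen T x = x.toWord.length := wlen_free x

lemma head_of_lcp {β : Type*} [DecidableEq β] (l m : List β) (h : 1 ≤ lcp l m) :
    l.head? = m.head? ∧ l ≠ [] := by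
  cases l with
  | nil => simp [lcp_nil_left] at h
  | cons a l =>
    cases m with
    | nil => simp [lcp_nil_right] at h
    | cons b m =>
      rw [lcp_cons_cons] at h
      split at h
      · next hab => subst hab; simp
      · simp at h

lemma hd_eq {x y : H} (h : 1 ≤ gprod T 1 x y) : hd x = hd y ∧ ∃ b, hd x = some b := by
  rw [gpT] at h
  have h' : 1 ≤ lcp x.toWord y.toWord := by exact_mod_cast h
  obtain ⟨h1, h2⟩ := head_of_lcp _ _ h'
  refine ⟨by unfold hd; rw [h1], ?_⟩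
  unfold hd
  cases hx : x.toWord with
  | nil => exact absurd hx h2
  | cons a l => exact ⟨_, rfl⟩

lemma hd_translate {x y : H} (g : H) (h : (wlen T g : ℝ) + 1 ≤ gprod T 1 x y) :
    hd (g⁻¹ * x) = hd (g⁻¹ * y) ∧ ∃ b, hd (g⁻¹ * x) = some b := by
  apply hd_eq
  have := gprod_translate hT g⁻¹ x y
  rw [wlen_inv hT] at this
  linarith

lemma conv_hd {x : ℕ → H} {ξ : Boundary T} (hx : ConvTo T x ξ) (g : H) :
    ∃ b, ∃ N, ∀ i, N ≤ i → hd (g⁻¹ * x i) = some b := by
  obtain ⟨N, hN⟩ := hx.tendsto hT h00 hyp0 hx (wlen T g + 1)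
  obtain ⟨b, hb⟩ := (hd_translate g (hN N N le_rfl le_rfl)).2
  exact ⟨b, N, fun i hi => ((hd_translate g (hN i N hi le_rfl)).1).trans hb⟩

lemma exists_conv (ξ : Boundary T) : ∃ x : ℕ → H, ConvTo T x ξ := by
  obtain ⟨x, rfl⟩ : ∃ x : InfSeq T, bmk T x = ξ := Quot.exists_rep ξ
  exact ⟨x.1, convTo_mk x⟩

/-- `F ξ g` is the kind of the first letter of `g⁻¹ ξ`. -/
noncomputable def F (ξ : Boundary T) (g : H) : Bool :=
  (conv_hd (exists_conv ξ).choose_spec g).choose

lemma F_spec {x : ℕ → H} {ξ : Boundary T} (hx : ConvTo T x ξ) (g : H) :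
    ∃ N, ∀ i, N ≤ i → hd (g⁻¹ * x i) = some (F ξ g) := by
  set y := (exists_conv ξ).choose with hy
  have hy2 : ConvTo T y ξ := (exists_conv ξ).choose_spec
  obtain ⟨N1, hN1⟩ := (conv_hd (exists_conv ξ).choose_spec g).choose_spec
  obtain ⟨N2, hN2⟩ := hx.tendsto hT h00 hyp0 hy2 (wlen T g + 1)
  refine ⟨N2, fun i hi => ?_⟩
  rw [(hd_translate g (hN2 i (max N1 N2) hi (le_max_right _ _))).1]
  exact hN1 _ (le_max_left _ _)

lemma F_eq {x : ℕ → H} {ξ : Boundary T} (hx : ConvTo T x ξ) (g : H) {b : Bool}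
    (h : ∀ N, ∃ i, N ≤ i ∧ hd (g⁻¹ * x i) = some b) : F ξ g = b := by
  obtain ⟨N, hN⟩ := F_spec hx g
  obtain ⟨i, hi, hb⟩ := h N
  have := hN i hi
  rw [hb] at this
  exact (Option.some.inj this).symm

lemma ConvTo.smul {x : ℕ → H} {ξ : Boundary T} (hx : ConvTo T x ξ) (h : H) :
    ConvTo T (fun i => h * x i) (bsmul hT h ξ) := by
  obtain ⟨y, rfl, rfl⟩ := hx
  exact ⟨translate hT h y, rfl, rfl⟩

lemma F_smul (h : H) (ξ : Boundary T) (g : H) : F (bsmul hT h ξ) g = F ξ (h⁻¹ * g) := by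
  obtain ⟨x, hx⟩ := exists_conv ξ
  obtain ⟨N, hN⟩ := F_spec hx (h⁻¹ * g)
  apply F_eq (Pool.Agent.U627.CT.ConvTo.smul hx h)
  intro M
  refine ⟨max M N, le_max_left _ _, ?_⟩
  have := hN (max M N) (le_max_right _ _)
  rw [← this]
  congr 1
  group

lemma F_bnhd {ξ η : Boundary T} (g : H) (h : η ∈ bnhd T ξ (wlen T g + 1)) : F η g = F ξ g := by
  obtain ⟨x, hx⟩ := exists_conv ξ
  obtain ⟨y, hy⟩ := exists_conv η
  obtain ⟨x', hx1, hx2⟩ := hx
  obtain ⟨y', hy1, hy2⟩ := hy
  obtain ⟨N, hN⟩ := bnhd_reps hT h00 hyp0 h x' y' hx2 hy2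
  obtain ⟨N1, hN1⟩ := F_spec (convTo_mk x') g
  rw [hx2] at hN1
  have hy3 := convTo_mk y'
  rw [hy2] at hy3
  apply F_eq hy3
  intro M
  set K := max M (max N N1) with hK
  have k0 : M ≤ K := le_max_left _ _
  have k1 : N ≤ K := le_trans (le_max_left _ _) (le_max_right _ _)
  have k2 : N1 ≤ K := le_trans (le_max_right _ _) (le_max_right _ _)
  refine ⟨K, k0, ?_⟩
  have h1 := hN K K k1 k1
  rw [← hN1 K k2]
  exact ((hd_translate g (by linarith)).1).symm

/-- The compactum `Z`. -/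
def Z : Type := Set.range F

noncomputable instance : TopologicalSpace Z := inferInstanceAs (TopologicalSpace (Set.range F))
noncomputable instance : T2Space Z := inferInstanceAs (T2Space (Set.range F))
noncomputable instance : SecondCountableTopology Z :=
  inferInstanceAs (SecondCountableTopology (Set.range F))
instance : TopologicalSpace.MetrizableSpace Z :=
  inferInstanceAs (TopologicalSpace.MetrizableSpace (Set.range F))

/-- The map `∂H → Z`. -/
noncomputable def f (ξ : Boundary T) : Z := ⟨F ξ, ξ, rfl⟩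

lemma f_surj : Function.Surjective f := by
  rintro ⟨z, ξ, rfl⟩
  exact ⟨ξ, rfl⟩

lemma f_eq_iff {ξ η : Boundary T} : f ξ = f η ↔ ∀ g, F ξ g = F η g := by
  constructor
  · intro h g
    exact congrFun (congrArg Subtype.val h) g
  · intro h
    exact Subtype.ext (funext h)

/-- The action of `H` on `Z`. -/
noncomputable instance : MulAction H Z where
  smul h z := ⟨fun g => z.1 (h⁻¹ * g), by
    obtain ⟨z, ξ, rfl⟩ := z
    exact ⟨bsmul hT h ξ, funext (fun g => F_smul h ξ g)⟩⟩
  one_smul z := Subtype.ext (funext fun g => by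
    show z.1 ((1 : H)⁻¹ * g) = z.1 g
    simp)
  mul_smul h k z := Subtype.ext (funext fun g => by
    show z.1 ((h * k)⁻¹ * g) = z.1 (k⁻¹ * (h⁻¹ * g))
    rw [mul_inv_rev, mul_assoc])

lemma smul_apply (h : H) (z : Z) (g : H) : (h • z).1 g = z.1 (h⁻¹ * g) := rfl

lemma f_smul (h : H) (ξ : Boundary T) : f (bsmul hT h ξ) = h • f ξ :=
  Subtype.ext (funext fun g => F_smul h ξ g)

lemma continuous_coord (g : H) : Continuous (fun z : Z => z.1 g) :=
  (continuous_apply g).comp continuous_subtype_val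

instance : ContinuousConstSMul H Z where
  continuous_const_smul h := by
    apply Continuous.subtype_mk
    apply continuous_pi
    intro g
    exact continuous_coord (h⁻¹ * g)

lemma tendsto_Z {ι : Type*} {l : Filter ι} {z : ι → Z} {w : Z}
    (h : ∀ g, ∀ᶠ i in l, (z i).1 g = w.1 g) : Tendsto z l (𝓝 w) := by
  refine (tendsto_subtype_rng (p := fun y => y ∈ Set.range F)).2 (tendsto_pi_nhds.2 ?_)
  intro g
  rw [nhds_discrete]
  exact tendsto_pure.2 (h g)

lemma eventually_coord {ι : Type*} {l : Filter ι} {z : ι → Z} {w : Z} (h : Tendsto z l (𝓝 w))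
    (g : H) : ∀ᶠ i in l, (z i).1 g = w.1 g := by
  have h' := tendsto_pi_nhds.1 ((tendsto_subtype_rng (p := fun y => y ∈ Set.range F)).1 h)
  have := h' g
  rw [nhds_discrete] at this
  exact tendsto_pure.1 this

lemma f_continuous : Continuous f := by
  rw [continuous_iff_continuousAt]
  intro ξ
  apply tendsto_Z
  intro g
  filter_upwards [bnhd_mem_nhds hT h00 hyp0 ξ (wlen T g + 1)] with η hη
  exact F_bnhd g hη

/-- approximations of boundary points -/
lemma approx (ξ : Boundary T) (k : ℕ) : ∃ p : H, wlen T p = k ∧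
    ∀ x : ℕ → H, ConvTo T x ξ → ∃ N, ∀ i, N ≤ i → (k : ℝ) ≤ gprod T 1 (x i) p := by
  obtain ⟨y, rfl⟩ : ∃ x : InfSeq T, bmk T x = ξ := Quot.exists_rep ξ
  obtain ⟨p, hp1, N, hN⟩ := approach hT h00 hyp0 y k
  refine ⟨p, hp1, fun x hx => ?_⟩
  obtain ⟨N', hN'⟩ := hx.tendsto hT h00 hyp0 (convTo_mk y) k
  refine ⟨N', fun i hi => ?_⟩
  have := hyp3 hyp0 (hN' i (max N N') hi (le_max_right _ _))
    (by have := hN (max N N') (le_max_left _ _); linarith)
  linarith

instance : CompactSpace Z := by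
  let _ : MetricSpace Z := TopologicalSpace.metrizableSpaceMetric Z
  rw [← isCompact_univ_iff]
  apply IsSeqCompact.isCompact
  intro z _
  have hz : ∀ n, ∃ ξ, f ξ = z n := fun n => f_surj (z n)
  choose ξ hξ using hz
  choose p hp1 hp2 using fun n => approx (ξ n) n
  obtain ⟨ψ, hψ, hc⟩ := extract hT h00 hyp0 hTfin p hp1
  obtain ⟨y, hy⟩ := convTo_mk' hc
  have hy2 : ConvTo T (fun k => p (ψ k)) (bmk T y) := ⟨y, hy, rfl⟩
  refine ⟨f (bmk T y), trivial, ψ, hψ, ?_⟩
  apply tendsto_Z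
  intro g
  obtain ⟨N, hN⟩ := F_spec hy2 g
  filter_upwards [eventually_ge_atTop (max N (wlen T g + 1))] with k hk
  show (z (ψ k)).1 g = F (bmk T y) g
  rw [← hξ]
  obtain ⟨x, hx⟩ := exists_conv (ξ (ψ k))
  apply F_eq hx
  intro M
  obtain ⟨N', hN'⟩ := hp2 (ψ k) x hx
  refine ⟨max M N', le_max_left _ _, ?_⟩
  have h1 := hN' (max M N') (le_max_right _ _)
  have h2 : wlen T g + 1 ≤ ψ k := ((le_max_right _ _).trans hk).trans (hψ.id_le k)
  have h3 : (wlen T g : ℝ) + 1 ≤ ψ k := by exact_mod_cast h2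
  rw [← hN k ((le_max_left _ _).trans hk)]
  exact (hd_translate g (h3.trans h1)).1

end Pool.Agent.U627.CT
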