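import Mathlib
import Pool.Agent.U627.CT.Core

/-!
# Dynamics of the action of `H` on `Z`
-/

set_option autoImplicit false

namespace Pool.Agent.U627.CT

open Filter Topology Pool.Agent.H322R3.Hyp Pool.Agent.R639.CT FreeGroup

section defs

variable (Γ : Type*) [Group Γ] (X : Type*) [TopologicalSpace X] [MulAction Γ X]

/-- The action of `Γ` on the space of distinct triples of `X` is properly discontinuous: for every
compact set `L` of distinct triples only finitely many `h ∈ Γ` satisfy `h L ∩ L ≠ ∅`. -/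
def TriplesPD : Prop :=
  ∀ L : Set (X × X × X), IsCompact L → (∀ t ∈ L, t.1 ≠ t.2.1 ∧ t.1 ≠ t.2.2 ∧ t.2.1 ≠ t.2.2) →
    {h : Γ | ∃ t ∈ L, (h • t.1, h • t.2.1, h • t.2.2) ∈ L}.Finite

/-- The limit set: the points `c` for which there are a sequence of distinct `h n ∈ Γ` and a point
`b` such that `h n → c` uniformly on compact subsets of `X - {b}`. -/
def limitSet : Set X :=
  {c | ∃ h : ℕ → Γ, Function.Injective h ∧ ∃ b : X,
    ∀ K : Set X, IsCompact K → b ∉ K → ∀ U ∈ 𝓝 c, ∀ᶠ n in atTop, ∀ x ∈ K, h n • x ∈ U}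

variable {X}

/-- `z` is conical: there are `h n ∈ Γ` and points `b ≠ c` with `h n z → b` and `h n y → c` for all
`y ≠ z`. -/
def IsConicalPt (z : X) : Prop :=
  ∃ (h : ℕ → Γ) (b c : X), b ≠ c ∧ Tendsto (fun n => h n • z) atTop (𝓝 b) ∧
    ∀ y, y ≠ z → Tendsto (fun n => h n • y) atTop (𝓝 c)

end defs

/-- A convergence action in the sense of sequences on a compact metrizable space is properly
discontinuous on distinct triples. -/
theorem triples_of_conv {Γ : Type*} [Group Γ] {X : Type*} [TopologicalSpace X] [MulAction Γ X]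
    [CompactSpace X] [T2Space X] [FirstCountableTopology X] (hc : IsConvergenceAction Γ X) :
    TriplesPD Γ X := by
  intro L hL hd
  by_contra hinf
  have hinf' : {h : Γ | ∃ t ∈ L, (h • t.1, h • t.2.1, h • t.2.2) ∈ L}.Infinite := hinf
  set γ : ℕ → Γ := fun n => hinf'.natEmbedding _ n with hγ
  have hγi : Function.Injective γ := fun a b hab =>
    (hinf'.natEmbedding _).injective (Subtype.ext hab)
  have hγm : ∀ n, ∃ t ∈ L, (γ n • t.1, γ n • t.2.1, γ n • t.2.2) ∈ L := fun n =>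
    (hinf'.natEmbedding _ n).2
  choose t ht1 ht2 using hγm
  obtain ⟨φ, hφ, a, b, hab⟩ := hc γ hγi
  obtain ⟨u, hu, ψ, hψ, hu2⟩ := hL.tendsto_subseq (fun n => ht1 (φ n))
  obtain ⟨v, hv, χ, hχ, hv2⟩ := hL.tendsto_subseq (fun n => ht2 (φ (ψ n)))
  have hu3 : Tendsto (fun n => t (φ (ψ (χ n)))) atTop (𝓝 u) := hu2.comp hχ.tendsto_atTop
  have key : ∀ (x : ℕ → X) (y w : X), Tendsto x atTop (𝓝 y) → y ≠ b →
      Tendsto (fun n => γ (φ (ψ (χ n))) • x n) atTop (𝓝 w) → w = a := by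
    intro x y w hx hyb hw
    refine tendsto_nhds_unique hw ?_
    obtain ⟨K, hK, hyK, hKb⟩ := exists_compact_subset (isOpen_compl_singleton (x := b)) hyb
    rw [tendsto_def]
    intro U hU
    have h1 := hab K hK (fun hb => hKb hb rfl) U hU
    have h2 : Tendsto (fun n => ψ (χ n)) atTop atTop := hψ.tendsto_atTop.comp hχ.tendsto_atTop
    have h3 := h2.eventually h1
    have h4 : ∀ᶠ n in atTop, x n ∈ K := by
      have := hx.eventually (isOpen_interior.mem_nhds hyK)
      filter_upwards [this] with n hn using interior_subset hn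
    filter_upwards [h3, h4] with n h5 h6
    exact h5 _ h6
  have a1 : Tendsto (fun n => (t (φ (ψ (χ n)))).1) atTop (𝓝 u.1) :=
    (continuous_fst.tendsto _).comp hu3
  have a2 : Tendsto (fun n => (t (φ (ψ (χ n)))).2.1) atTop (𝓝 u.2.1) :=
    ((continuous_fst.comp continuous_snd).tendsto _).comp hu3
  have a3 : Tendsto (fun n => (t (φ (ψ (χ n)))).2.2) atTop (𝓝 u.2.2) :=
    ((continuous_snd.comp continuous_snd).tendsto _).comp hu3
  have b1 : Tendsto (fun n => γ (φ (ψ (χ n))) • (t (φ (ψ (χ n)))).1) atTop (𝓝 v.1) :=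
    (continuous_fst.tendsto _).comp hv2
  have b2 : Tendsto (fun n => γ (φ (ψ (χ n))) • (t (φ (ψ (χ n)))).2.1) atTop (𝓝 v.2.1) :=
    ((continuous_fst.comp continuous_snd).tendsto _).comp hv2
  have b3 : Tendsto (fun n => γ (φ (ψ (χ n))) • (t (φ (ψ (χ n)))).2.2) atTop (𝓝 v.2.2) :=
    ((continuous_snd.comp continuous_snd).tendsto _).comp hv2
  obtain ⟨d1, d2, d3⟩ := hd u hu
  obtain ⟨e1, e2, e3⟩ := hd v hv
  by_cases c1 : u.1 = b
  · have c2 : u.2.1 ≠ b := fun h => d1 (c1.trans h.symm)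
    have c3 : u.2.2 ≠ b := fun h => d2 (c1.trans h.symm)
    exact e3 ((key _ _ _ a2 c2 b2).trans (key _ _ _ a3 c3 b3).symm)
  · by_cases c2 : u.2.1 = b
    · have c3 : u.2.2 ≠ b := fun h => d3 (c2.trans h.symm)
      exact e2 ((key _ _ _ a1 c1 b1).trans (key _ _ _ a3 c3 b3).symm)
    · exact e1 ((key _ _ _ a1 c1 b1).trans (key _ _ _ a2 c2 b2).symm)

lemma convInf_comp {h : ℕ → H} (hc : ConvInf T h) {χ : ℕ → ℕ} (hχ : StrictMono χ) :
    ConvInf T (fun k => h (χ k)) := by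
  unfold ConvInf at hc ⊢
  rw [tendsto_pair_iff (fun i j => gprod T 1 (h i) (h j))] at hc
  rw [tendsto_pair_iff (fun i j => gprod T 1 (h (χ i)) (h (χ j)))]
  intro M
  obtain ⟨N, hN⟩ := hc M
  exact ⟨N, fun i j hi hj => hN _ _ (hi.trans (hχ.id_le i)) (hj.trans (hχ.id_le j))⟩

/-- Extraction of a subsequence which converges, with its inverses, to boundary points. -/
lemma exists_dyn (h : ℕ → H) (hlen : ∀ M : ℝ, ∃ N : ℕ, ∀ k, N ≤ k → M ≤ wlen T (h k)) :
    ∃ φ : ℕ → ℕ, StrictMono φ ∧ ∃ c b : Boundary T,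
      ConvTo T (fun n => h (φ n)) c ∧ ConvTo T (fun n => (h (φ n))⁻¹) b := by
  obtain ⟨ψ, hψ, hc⟩ := extract' hT h00 hyp0 hTfin h hlen
  have hlen2 : ∀ M : ℝ, ∃ N : ℕ, ∀ k, N ≤ k → M ≤ wlen T (h (ψ k))⁻¹ := by
    intro M
    obtain ⟨N, hN⟩ := hlen M
    refine ⟨N, fun k hk => ?_⟩
    rw [wlen_inv hT]
    exact hN _ (hk.trans (hψ.id_le k))
  obtain ⟨χ, hχ, hc2⟩ := extract' hT h00 hyp0 hTfin (fun k => (h (ψ k))⁻¹) hlen2
  obtain ⟨y, hy⟩ := convTo_mk' (convInf_comp hc hχ)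
  obtain ⟨y2, hy2⟩ := convTo_mk' hc2
  exact ⟨fun n => ψ (χ n), hψ.comp hχ, bmk T y, bmk T y2, ⟨y, hy, rfl⟩, ⟨y2, hy2, rfl⟩⟩

lemma len_of_inj (h : ℕ → H) (hfin : ∀ g : H, {k | h k = g}.Finite) (M : ℝ) :
    ∃ N : ℕ, ∀ k, N ≤ k → M ≤ wlen T (h k) := by
  obtain ⟨n, hn⟩ := exists_nat_ge M
  have h1 : {k | wlen T (h k) ≤ n}.Finite := by
    have : {k | wlen T (h k) ≤ n} = ⋃ g ∈ {g : H | wlen T g ≤ n}, {k | h k = g} := by
      ext k; simp
    rw [this]
    exact (ball_finite hT hTfin n).biUnion (fun g _ => hfin g)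
  obtain ⟨N, hN⟩ := h1.bddAbove
  refine ⟨N + 1, fun k hk => ?_⟩
  by_contra hcon
  push Not at hcon
  have h2 : wlen T (h k) ≤ n := by
    have : (wlen T (h k) : ℝ) ≤ n := hcon.le.trans hn
    exact_mod_cast this
  have := hN h2
  omega

lemma inj_fin {h : ℕ → H} (hi : Function.Injective h) (g : H) : {k | h k = g}.Finite := by
  apply Set.Subsingleton.finite
  intro a ha b hb
  exact hi (ha.trans hb.symm)

/-- North-south dynamics, uniformly away from `b`. -/
lemma unif {h : ℕ → H} {c b : Boundary T} (hc : ConvTo T h c)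
    (hb : ConvTo T (fun n => (h n)⁻¹) b) (R : ℝ) (g : H) :
    ∃ N, ∀ n, N ≤ n → ∀ ξ : Boundary T, ξ ∉ bnhd T b R → F ξ ((h n)⁻¹ * g) = F c g := by
  obtain ⟨N1, hN1⟩ := hb.tendsto hT h00 hyp0 hb R
  obtain ⟨N2, hN2⟩ := F_spec hc g
  obtain ⟨N3, hN3⟩ := hc.tendsto hT h00 hyp0 hc (wlen T g + 1 + R)
  refine ⟨max N1 (max N2 N3), fun n hn ξ hξ => ?_⟩
  have k1 : N1 ≤ n := (le_max_left _ _).trans hn
  have k2 : N2 ≤ n := (le_max_left _ _).trans ((le_max_right _ _).trans hn)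
  have k3 : N3 ≤ n := (le_max_right _ _).trans ((le_max_right _ _).trans hn)
  obtain ⟨x, hx⟩ := exists_conv ξ
  obtain ⟨N4, hN4⟩ := hx.tendsto hT h00 hyp0 hx R
  have claim : ∀ i, N4 ≤ i → gprod T 1 (x i) (h n)⁻¹ < R := by
    intro i hi
    by_contra hcon
    push Not at hcon
    apply hξ
    obtain ⟨y, hy1, hy2⟩ := hb
    obtain ⟨x', hx1, hx2⟩ := hx
    refine ⟨y, x', hy2, hx2, max N1 N4, fun i' j' hi' hj' => ?_⟩
    rw [hy1, hx1]
    have := hyp4 h00 hyp0 (hN1 i' n ((le_max_left _ _).trans hi') k1)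
      (by rw [gprod_symm hT]; exact hcon) (hN4 i j' hi ((le_max_right _ _).trans hj'))
    linarith
  apply F_eq hx
  intro M
  refine ⟨max M N4, le_max_left _ _, ?_⟩
  have h1 := claim (max M N4) (le_max_right _ _)
  have h2 := gprod_inv hT (h n)⁻¹ (x (max M N4))
  rw [inv_inv, wlen_inv hT] at h2
  have h3 := hN3 n n k3 k3
  rw [gprod_self hT] at h3
  have h4 := (hd_translate g (x := h n * x (max M N4)) (y := h n) (by linarith)).1
  rw [hN2 n k2] at h4
  rw [← h4]
  congr 1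
  group

lemma exists_not_bnhd {ξ b : Boundary T} (h : ξ ≠ b) : ∃ R : ℝ, ξ ∉ bnhd T b R := by
  by_contra hcon
  push Not at hcon
  apply h
  obtain ⟨x, rfl⟩ : ∃ x : InfSeq T, bmk T x = ξ := Quot.exists_rep ξ
  obtain ⟨y, rfl⟩ : ∃ x : InfSeq T, bmk T x = b := Quot.exists_rep b
  symm
  rw [bmk_eq_iff hT h00 hyp0, bequiv_def]
  intro M
  obtain ⟨N, hN⟩ := bnhd_reps hT h00 hyp0 (hcon M) y x rfl rfl
  refine ⟨N, fun i j hi hj => ?_⟩
  have := hN i j hi hj
  linarith

lemma tendsto_of_ne {h : ℕ → H} {c b : Boundary T} (hc : ConvTo T h c)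
    (hb : ConvTo T (fun n => (h n)⁻¹) b) {ξ : Boundary T} (hξ : ξ ≠ b) :
    Tendsto (fun n => h n • f ξ) atTop (𝓝 (f c)) := by
  obtain ⟨R, hR⟩ := exists_not_bnhd hξ
  apply tendsto_Z
  intro g
  obtain ⟨N, hN⟩ := unif hc hb R g
  filter_upwards [eventually_ge_atTop N] with n hn
  exact hN n hn ξ hR

lemma sep_compact {K : Set Z} (hK : IsCompact K) {b : Boundary T} (hb : f b ∉ K) :
    ∃ R : ℝ, ∀ ξ, f ξ ∈ K → ξ ∉ bnhd T b R := by
  have hopen : ∀ k : H, IsOpen {z : Z | z.1 k ≠ (f b).1 k} := by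
    intro k
    exact (isOpen_discrete {x : Bool | x ≠ (f b).1 k}).preimage (continuous_coord k)
  have hcov : K ⊆ ⋃ k, {z : Z | z.1 k ≠ (f b).1 k} := by
    intro z hz
    rw [Set.mem_iUnion]
    by_contra hcon
    push Not at hcon
    apply hb
    have : z = f b := Subtype.ext (funext fun k => by
      have := hcon k
      simpa using this)
    rw [← this]
    exact hz
  obtain ⟨t, ht⟩ := hK.elim_finite_subcover _ hopen hcov
  refine ⟨(∑ k ∈ t, (wlen T k : ℝ)) + 1, fun ξ hξ hcon => ?_⟩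
  obtain ⟨k, hk⟩ := Set.mem_iUnion.1 (ht hξ)
  obtain ⟨hkt, hk2⟩ := Set.mem_iUnion.1 hk
  apply hk2
  apply F_bnhd k
  apply bnhd_anti T b _ hcon
  have := Finset.single_le_sum (f := fun k => (wlen T k : ℝ)) (fun i _ => by positivity) hkt
  linarith

lemma unif_Z {h : ℕ → H} {c b : Boundary T} (hc : ConvTo T h c)
    (hb : ConvTo T (fun n => (h n)⁻¹) b) {K : Set Z} (hK : IsCompact K) (hbK : f b ∉ K) {U : Set Z}
    (hU : U ∈ 𝓝 (f c)) : ∀ᶠ n in atTop, ∀ x ∈ K, h n • x ∈ U := by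
  obtain ⟨R, hR⟩ := sep_compact hK hbK
  have key : Tendsto (fun p : ℕ × Z => h p.1 • p.2) (atTop ×ˢ 𝓟 K) (𝓝 (f c)) := by
    apply tendsto_Z
    intro g
    rw [eventually_prod_principal_iff]
    obtain ⟨N, hN⟩ := unif hc hb R g
    filter_upwards [eventually_ge_atTop N] with n hn z hz
    obtain ⟨ξ, rfl⟩ := f_surj z
    exact hN n hn ξ (hR ξ hz)
  exact eventually_prod_principal_iff.1 (key.eventually hU)

/-- The action of `H` on `Z` is a convergence action. -/
theorem conv_Z : IsConvergenceAction H Z := by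
  intro γ hγ
  obtain ⟨φ, hφ, c, b, hc, hb⟩ := exists_dyn γ (len_of_inj γ (inj_fin hγ))
  exact ⟨φ, hφ, f c, f b, fun K hK hbK U hU => unif_Z hc hb hK hbK hU⟩

theorem triples_Z : TriplesPD H Z := triples_of_conv conv_Z

lemma approx_conv (ξ : Boundary T) : ∃ p : ℕ → H, (∀ k, wlen T (p k) = k) ∧ ConvTo T p ξ := by
  choose p hp1 hp2 using approx ξ
  obtain ⟨x, hx⟩ := exists_conv ξ
  refine ⟨p, hp1, ConvTo.of_tendsto hT h00 hyp0 hx ?_⟩
  intro M
  obtain ⟨N, hN⟩ := hx.tendsto hT h00 hyp0 hx M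
  obtain ⟨K, hK⟩ := exists_nat_ge M
  refine ⟨max N K, fun i j hi hj => ?_⟩
  obtain ⟨N', hN'⟩ := hp2 i x hx
  have h1 := hN' (max N N') (le_max_right _ _)
  have h2 := hN (max N N') j (le_max_left _ _) ((le_max_left _ _).trans hj)
  have h3 : M ≤ gprod T 1 (p i) (x (max N N')) := by
    rw [gprod_symm hT]
    have : (K : ℝ) ≤ i := by exact_mod_cast (le_max_right _ _).trans hi
    linarith
  have := hyp3 hyp0 h3 h2
  linarith

/-- All points of `Z` are limit points. -/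
theorem limitSet_Z : limitSet H Z = Set.univ := by
  ext z
  simp only [Set.mem_univ, iff_true]
  obtain ⟨ξ, rfl⟩ := f_surj z
  obtain ⟨p, hp1, hp2⟩ := approx_conv ξ
  have hpi : Function.Injective p := by
    intro a b hab
    rw [← hp1 a, ← hp1 b, hab]
  obtain ⟨φ, hφ, c, b, hc, hb⟩ := exists_dyn p (len_of_inj p (inj_fin hpi))
  have hcξ : c = ξ := by
    apply ConvTo.unique hT h00 hyp0 hp2 hc
    intro M
    obtain ⟨N, hN⟩ := hp2.tendsto hT h00 hyp0 hp2 M
    exact ⟨N, fun i j hi hj => hN _ _ (hi.trans (hφ.id_le i)) hj⟩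
  refine ⟨fun n => p (φ n), hpi.comp hφ.injective, f b, fun K hK hbK U hU => ?_⟩
  rw [← hcξ] at hU
  exact unif_Z hc hb hK hbK hU

/-! ### The point `z₀` -/

/-- The function `z₀`: the value at `g` is `false` iff `g⁻¹` starts with `x₂^{±1}`. -/
def zfun (g : H) : Bool := decide (hd g⁻¹ ≠ some false)

/-- The elements of the free factor `⟨x₀, x₁⟩`. -/
def InP (x : H) : Prop := ∀ l ∈ x.toWord, l.1 ≠ 2

lemma InP.hd_ne {x : H} (hx : InP x) : hd x ≠ some false := by
  unfold hd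
  cases h : x.toWord with
  | nil => simp
  | cons a l =>
    simp only [List.head?_cons, Option.map_some, ne_eq, Option.some.injEq, decide_eq_false_iff_not,
      not_not]
    exact hx a (by rw [h]; simp)

lemma InP.inv {x : H} (hx : InP x) : InP x⁻¹ := by
  intro l hl
  rw [toWord_inv] at hl
  unfold invRev at hl
  rw [List.mem_reverse, List.mem_map] at hl
  obtain ⟨l', hl', rfl⟩ := hl
  exact hx l' hl'

lemma F_P {x : ℕ → H} {ξ : Boundary T} (hx : ConvTo T x ξ) (hP : ∀ i, InP (x i)) :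
    F ξ = zfun := by
  funext g
  obtain ⟨N, hN⟩ := F_spec hx g
  have h1 := hN N le_rfl
  by_cases hcase : 1 ≤ gprod T 1 (g⁻¹ * x N) g⁻¹
  · have h2 := (hd_eq hcase).1
    rw [h1] at h2
    unfold zfun
    rw [← h2]
    simp
  · have h2 := gprod_inv hT g (x N)
    rw [h2] at hcase
    rw [gpT, wlenT] at hcase
    have h3 : g.toWord.length ≤ lcp (x N).toWord g.toWord := by
      by_contra hlt
      apply hcase
      push Not at hlt
      have : (lcp (x N).toWord g.toWord : ℝ) + 1 ≤ g.toWord.length := by exact_mod_cast hlt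
      linarith
    have h4 := take_of_lcp _ _ h3
    have h5 : InP g := by
      intro l hl
      rw [← h4] at hl
      exact hP N l (List.mem_of_mem_take hl)
    have h6 : InP (g⁻¹ * x N) := by
      have e1 : x N = g * FreeGroup.mk ((x N).toWord.drop g.toWord.length) := by
        conv_lhs => rw [← mk_toWord (x := x N), ← List.take_append_drop g.toWord.length (x N).toWord,
          h4, ← mul_mk, mk_toWord]
      have e2 : g⁻¹ * x N = FreeGroup.mk ((x N).toWord.drop g.toWord.length) := by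
        conv_lhs => rw [e1, inv_mul_cancel_left]
      rw [e2]
      intro l hl
      rw [toWord_mk, IsReduced.reduce_eq] at hl
      · exact hP N l (List.mem_of_mem_drop hl)
      · exact List.IsChain.drop (isReduced_toWord (x := x N)) _
    have h7 := h6.hd_ne
    rw [h1] at h7
    have h8 := h5.inv.hd_ne
    unfold zfun
    rw [decide_eq_true h8]
    cases hF : F ξ g
    · exact absurd (congrArg some hF) h7
    · rfl

end Pool.Agent.U627.CT
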