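import Mathlib
import Pool.Agent.U627.CT.Dyn

/-!
# The Cannon-Thurston map, the fibre over `z₀` and its Hausdorff dimension
-/

set_option autoImplicit false

namespace Pool.Agent.U627.CT

open Filter Topology Pool.Agent.H322R3.Hyp Pool.Agent.R639.CT FreeGroup

/-! ### positive words -/

lemma isReduced_pos {β : Type*} (l : List (β × Bool)) (h : ∀ x ∈ l, x.2 = true) :
    IsReduced l := by
  unfold FreeGroup.IsReduced
  induction l with
  | nil => exact List.isChain_nil
  | cons a l ih =>
    rw [List.isChain_cons]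
    refine ⟨fun y hy _ => ?_, ih (fun x hx => h x (List.mem_cons_of_mem _ hx))⟩
    rw [h a List.mem_cons_self, h y (List.mem_cons_of_mem _ (List.mem_of_mem_head? hy))]

/-- the list of the first `n` letters -/
def lw (s : ℕ → Fin 2) (n : ℕ) : List (Fin 3 × Bool) :=
  (List.range n).map (fun i => ((s i).castSucc, true))

/-- The positive word `x_{s 0} x_{s 1} ⋯ x_{s (n-1)}`. -/
def pw (s : ℕ → Fin 2) (n : ℕ) : H := FreeGroup.mk (lw s n)

lemma toWord_pw (s : ℕ → Fin 2) (n : ℕ) : (pw s n).toWord = lw s n := by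
  unfold pw
  rw [toWord_mk]
  apply IsReduced.reduce_eq
  apply isReduced_pos
  intro x hx
  unfold lw at hx
  rw [List.mem_map] at hx
  obtain ⟨i, -, rfl⟩ := hx
  rfl

lemma lcp_range {β : Type*} [DecidableEq β] (n : ℕ) : ∀ (u v : ℕ → β), (∀ k, k < n → u k = v k) →
    u n ≠ v n → ∀ i j, n < i → n < j →
    lcp ((List.range i).map u) ((List.range j).map v) = n := by
  induction n with
  | zero =>
    intro u v _ hne i j hi hj
    obtain ⟨i, rfl⟩ := Nat.exists_eq_succ_of_ne_zero (by omega : i ≠ 0)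
    obtain ⟨j, rfl⟩ := Nat.exists_eq_succ_of_ne_zero (by omega : j ≠ 0)
    rw [Nat.succ_eq_add_one, Nat.succ_eq_add_one, List.range_succ_eq_map, List.range_succ_eq_map,
      List.map_cons, List.map_cons, lcp_cons_cons, if_neg hne]
  | succ n ih =>
    intro u v h hne i j hi hj
    obtain ⟨i, rfl⟩ := Nat.exists_eq_succ_of_ne_zero (by omega : i ≠ 0)
    obtain ⟨j, rfl⟩ := Nat.exists_eq_succ_of_ne_zero (by omega : j ≠ 0)
    rw [Nat.succ_eq_add_one, Nat.succ_eq_add_one, List.range_succ_eq_map, List.range_succ_eq_map,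
      List.map_cons, List.map_cons, lcp_cons_cons, if_pos (h 0 (by omega)), List.map_map,
      List.map_map]
    have := ih (u ∘ Nat.succ) (v ∘ Nat.succ) (fun k hk => h (k + 1) (by omega)) hne i j (by omega)
      (by omega)
    rw [this]

lemma lcp_range_self {β : Type*} [DecidableEq β] (u : ℕ → β) (i j : ℕ) :
    lcp ((List.range i).map u) ((List.range j).map u) = min i j := by
  induction i generalizing u j with
  | zero => simp [lcp_nil_left]
  | succ i ih =>
    cases j with
    | zero => simp [lcp_nil_right]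
    | succ j =>
      rw [List.range_succ_eq_map, List.range_succ_eq_map, List.map_cons, List.map_cons,
        lcp_cons_cons, if_pos rfl, List.map_map, List.map_map, ih (u ∘ Nat.succ) j]
      omega

lemma gprod_pw_self (s : ℕ → Fin 2) (i j : ℕ) :
    gprod T 1 (pw s i) (pw s j) = ((min i j : ℕ) : ℝ) := by
  rw [gpT, toWord_pw, toWord_pw]
  unfold lw
  rw [lcp_range_self]

lemma lcp_pw {s t : ℕ → Fin 2} {n : ℕ} (h : ∀ k, k < n → s k = t k) (hne : s n ≠ t n) {i j : ℕ}
    (hi : n < i) (hj : n < j) : lcp (pw s i).toWord (pw t j).toWord = n := by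
  rw [toWord_pw, toWord_pw]
  unfold lw
  apply lcp_range n _ _ (fun k hk => by rw [h k hk]) _ i j hi hj
  intro hcon
  apply hne
  have := congrArg Prod.fst hcon
  exact Fin.castSucc_injective 2 this

lemma conv_pw (s : ℕ → Fin 2) : ConvInf T (pw s) := by
  unfold ConvInf
  rw [tendsto_pair_iff (fun i j => gprod T 1 (pw s i) (pw s j))]
  intro M
  obtain ⟨N, hN⟩ := exists_nat_ge M
  refine ⟨N, fun i j hi hj => ?_⟩
  rw [gprod_pw_self]
  have h1 : (N : ℝ) ≤ ((min i j : ℕ) : ℝ) := by exact_mod_cast le_min hi hj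
  exact hN.trans h1

/-- The boundary point given by the positive infinite word `x_{s 0} x_{s 1} ⋯`. -/
def bp (s : ℕ → Fin 2) : Boundary T := bmk T ⟨pw s, conv_pw s⟩

lemma conv_bp (s : ℕ → Fin 2) : ConvTo T (pw s) (bp s) := ⟨⟨pw s, conv_pw s⟩, rfl, rfl⟩

lemma bp_inj : Function.Injective bp := by
  intro s t hst
  by_contra hne
  have hex : ∃ n, s n ≠ t n := by
    by_contra hcon
    push Not at hcon
    exact hne (funext hcon)
  classical
  have h1 := Nat.find_spec hex
  have h2 : ∀ k, k < Nat.find hex → s k = t k := fun k hk => by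
    have := Nat.find_min hex hk
    push Not at this
    exact this
  have h3 := conv_bp s
  rw [hst] at h3
  obtain ⟨N, hN⟩ := h3.tendsto hT h00 hyp0 (conv_bp t) (Nat.find hex + 1)
  have h4 := hN (max N (Nat.find hex + 1)) (max N (Nat.find hex + 1)) (le_max_left _ _)
    (le_max_left _ _)
  rw [gpT, lcp_pw h2 h1 (by omega) (by omega)] at h4
  linarith

lemma inP_pw (s : ℕ → Fin 2) (n : ℕ) : InP (pw s n) := by
  intro l hl
  rw [toWord_pw] at hl
  unfold lw at hl
  rw [List.mem_map] at hl
  obtain ⟨i, -, rfl⟩ := hl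
  intro h
  have := congrArg Fin.val h
  have h2 := (s i).isLt
  simp at this
  omega

lemma F_bp (s : ℕ → Fin 2) : F (bp s) = zfun := F_P (conv_bp s) (inP_pw s)

/-- The point `z₀` of `Z`, fixed by the free factor `⟨x₀, x₁⟩`. -/
noncomputable def z₀ : Z := f (bp (fun _ => 0))

lemma z₀_val : (z₀).1 = zfun := F_bp _

lemma f_bp (s : ℕ → Fin 2) : f (bp s) = z₀ := by
  apply Subtype.ext
  show F (bp s) = F (bp fun _ => 0)
  rw [F_bp, F_bp]

/-- `f` is a Cannon-Thurston map: the orbit map of `z₀` extends continuously by `f`. -/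
theorem ct (x : ℕ → H) (ξ : Boundary T) (hx : ConvTo T x ξ) :
    Tendsto (fun n => x n • z₀) atTop (𝓝 (f ξ)) := by
  apply tendsto_Z
  intro g
  obtain ⟨N, hN⟩ := F_spec hx g
  filter_upwards [eventually_ge_atTop N] with n hn
  rw [smul_apply, z₀_val]
  show zfun ((x n)⁻¹ * g) = F ξ g
  unfold zfun
  have e : ((x n)⁻¹ * g)⁻¹ = g⁻¹ * x n := by group
  rw [e, hN n hn]
  simp

lemma hd_pow (m : ℕ) : hd ((of 2 : H) ^ (m + 1)) = some false := by
  unfold hd
  rw [toWord_of_pow, List.replicate_succ]
  rfl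

/-- The orbit of `z₀` is infinite. -/
lemma orbit_inj : Function.Injective (fun k : ℕ => (of 2 : H) ^ k • z₀) := by
  have key : ∀ k j : ℕ, j < k → (of 2 : H) ^ k • z₀ ≠ (of 2 : H) ^ j • z₀ := by
    intro k j hjk h
    have h1 := congrFun (congrArg Subtype.val h) ((of 2 : H) ^ j)
    rw [smul_apply, smul_apply, z₀_val] at h1
    unfold zfun at h1
    obtain ⟨m, rfl⟩ : ∃ m, k = j + (m + 1) := ⟨k - j - 1, by omega⟩
    have e1 : (((of 2 : H) ^ (j + (m + 1)))⁻¹ * (of 2 : H) ^ j)⁻¹ = (of 2 : H) ^ (m + 1) := by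
      rw [pow_add]; group
    have e2 : (((of 2 : H) ^ j)⁻¹ * (of 2 : H) ^ j)⁻¹ = 1 := by group
    rw [e1, e2, hd_pow] at h1
    revert h1
    unfold hd
    simp
  intro k j h
  by_contra hne
  rcases Nat.lt_or_gt_of_ne hne with h1 | h1
  · exact key j k h1 h.symm
  · exact key k j h1 h

instance : Infinite Z := Infinite.of_injective _ orbit_inj

lemma exists_third (u v : Z) : ∃ w : Z, w ≠ u ∧ w ≠ v := by
  classical
  obtain ⟨w, hw⟩ := Infinite.exists_notMem_finset ({u, v} : Finset Z)
  simp only [Finset.mem_insert, Finset.mem_singleton, not_or] at hw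
  exact ⟨w, hw⟩

/-- Points with at least two preimages are not conical. -/
theorem nonconical {ξ₁ ξ₂ : Boundary T} (hne : ξ₁ ≠ ξ₂) (heq : f ξ₁ = f ξ₂) :
    ¬ IsConicalPt H (f ξ₁) := by
  rintro ⟨h, b, c, hbc, hb, hc⟩
  have hfin : ∀ g : H, {k | h k = g}.Finite := by
    intro g
    by_contra hinf
    have hfr : ∃ᶠ n in atTop, h n = g := Nat.frequently_atTop_iff_infinite.2 hinf
    have key : ∀ y, y ≠ f ξ₁ → g • y = c := by
      intro y hy
      by_contra hgy
      have h1 := (hc y hy).eventually (isOpen_compl_singleton.mem_nhds (Ne.symm hgy))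
      obtain ⟨n, hn1, hn2⟩ := (hfr.and_eventually h1).exists
      apply hn2
      rw [hn1]
      rfl
    obtain ⟨y1, hy1, -⟩ := exists_third (f ξ₁) (f ξ₁)
    obtain ⟨y2, hy2, hy12⟩ := exists_third (f ξ₁) y1
    apply hy12
    have := (key y2 hy2).trans (key y1 hy1).symm
    exact (MulAction.injective g) this
  obtain ⟨φ, hφ, c', b', hc', hb'⟩ := exists_dyn h (len_of_inj h hfin)
  have hsub : ∀ {y w : Z}, Tendsto (fun n => h n • y) atTop (𝓝 w) →
      Tendsto (fun n => h (φ n) • y) atTop (𝓝 w) := fun hy => hy.comp hφ.tendsto_atTop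
  have hbeq : b = f c' := by
    by_cases h1 : ξ₁ = b'
    · have h2 : ξ₂ ≠ b' := fun h3 => hne (h1.trans h3.symm)
      have := tendsto_of_ne hc' hb' h2
      rw [← heq] at this
      exact tendsto_nhds_unique (hsub hb) this
    · exact tendsto_nhds_unique (hsub hb) (tendsto_of_ne hc' hb' h1)
  obtain ⟨y, hy1, hy2⟩ := exists_third (f ξ₁) (f b')
  obtain ⟨η, rfl⟩ := f_surj y
  have hη : η ≠ b' := fun h => hy2 (by rw [h])
  have hceq : c = f c' := tendsto_nhds_unique (hsub (hc _ hy1)) (tendsto_of_ne hc' hb' hη)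
  exact hbc (hbeq.trans hceq.symm)

/-! ### dimension -/

/-- A family of points indexed by binary sequences whose distances are at least a fixed power of
`2 ^ (-n)` (`n` = first index where the sequences differ) has positive Hausdorff dimension. -/
theorem dim_pos {Y : Type*} [MetricSpace Y] (u : (ℕ → Fin 2) → Y) (hu : Function.Injective u)
    (K r : ℝ) (hK : 0 ≤ K) (hr : 0 < r)
    (h : ∀ s t n, (∀ k, k < n → s k = t k) → s n ≠ t n →
      ((2 : ℝ) ^ n)⁻¹ ≤ K * dist (u s) (u t) ^ r) :
    ENNReal.ofReal r ≤ dimH (Set.range u) := by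
  classical
  set Φ : Y → ℝ := fun y => if h : ∃ s, u s = y then Real.ofDigits h.choose else 0 with hΦ
  have hΦu : ∀ s, Φ (u s) = Real.ofDigits s := by
    intro s
    have hex : ∃ s', u s' = u s := ⟨s, rfl⟩
    simp only [hΦ]
    rw [dif_pos hex, hu hex.choose_spec]
  have hold : HolderOnWith K.toNNReal r.toNNReal Φ (Set.range u) := by
    rintro _ ⟨s, rfl⟩ _ ⟨t, rfl⟩
    rw [hΦu, hΦu]
    by_cases hst : s = t
    · subst hst; simp
    have hex : ∃ n, s n ≠ t n := by
      by_contra hcon
      push Not at hcon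
      exact hst (funext hcon)
    have h1 := Nat.find_spec hex
    have h2 : ∀ k, k < Nat.find hex → s k = t k := fun k hk => by
      have := Nat.find_min hex hk
      push Not at this
      exact this
    have h3 := h s t _ h2 h1
    have h4 := Real.abs_ofDigits_sub_ofDigits_le (x := s) (y := t) (n := Nat.find hex) h2
    rw [edist_dist, edist_dist, Real.dist_eq, Real.coe_toNNReal r hr.le]
    rw [ENNReal.ofReal_rpow_of_nonneg dist_nonneg hr.le]
    have e : ((K.toNNReal : NNReal) : ENNReal) = ENNReal.ofReal K := rfl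
    rw [e, ← ENNReal.ofReal_mul hK]
    apply ENNReal.ofReal_le_ofReal
    have h5 : ((2 : ℕ) : ℝ) = 2 := by norm_num
    rw [h5] at h4
    exact h4.trans h3
  have hr' : 0 < r.toNNReal := Real.toNNReal_pos.2 hr
  have h1 := hold.dimH_image_le hr'
  have h2 : Set.Icc (0 : ℝ) 1 ⊆ Φ '' Set.range u := by
    intro y hy
    obtain ⟨s, -, hs⟩ := Real.ofDigits_SurjOn (b := 2) (by norm_num) hy
    exact ⟨u s, ⟨s, rfl⟩, by rw [hΦu, hs]⟩
  have h3 : dimH (Set.Icc (0 : ℝ) 1) = 1 := by
    have := Real.dimH_of_nonempty_interior (s := Set.Icc (0 : ℝ) 1) (by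
      rw [interior_Icc]; exact ⟨1 / 2, by norm_num, by norm_num⟩)
    rw [this]
    simp
  have h4 : (1 : ENNReal) ≤ dimH (Set.range u) / (r.toNNReal : ENNReal) := by
    rw [← h3]
    exact (dimH_mono h2).trans h1
  have h5 : (r.toNNReal : ENNReal) ≠ 0 := by
    simpa using hr
  have h6 : (r.toNNReal : ENNReal) ≠ ⊤ := ENNReal.coe_ne_top
  have h7 := (ENNReal.le_div_iff_mul_le (Or.inl h5) (Or.inl h6)).1 h4
  rw [one_mul] at h7
  exact h7

/-! ### Gromov products in trees with a geometric action -/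

section tree

variable {X : Type*} [MetricSpace X] [MulAction H X]

lemma orbit_lip (hG : IsGeometric H X) (x₀ : X) : ∃ C : ℝ, 0 ≤ C ∧
    (∀ h : H, wlen T h ≤ 1 → dist x₀ (h • x₀) ≤ C) ∧ ∀ g : H, dist x₀ (g • x₀) ≤ C * wlen T g := by
  obtain ⟨C, hC0, hC⟩ := orbit_upper hT hTfin x₀
  refine ⟨C, hC0, hC, ?_⟩
  have key : ∀ n : ℕ, ∀ g : H, wlen T g = n → dist x₀ (g • x₀) ≤ C * n := by
    intro n
    induction n with
    | zero =>
      intro g hg
      rw [wlenT, List.length_eq_zero_iff, toWord_eq_nil_iff] at hg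
      rw [hg]
      simp
    | succ n ih =>
      intro g hg
      obtain ⟨h, hh1, hh2⟩ := wlen_geod hT g n (by omega)
      have h1 := ih h hh1
      have h2 := hC (h⁻¹ * g) (by omega)
      rw [← dist_smul_smul hG] at h2
      have h3 := dist_triangle x₀ (h • x₀) (g • x₀)
      push_cast
      linarith
  intro g
  exact key _ g rfl

lemma toWord_inv_mul' (x y : H) :
    (x⁻¹ * y).toWord = invRev (x.toWord.drop (lcp x.toWord y.toWord)) ++
      y.toWord.drop (lcp x.toWord y.toWord) := by
  set n := lcp x.toWord y.toWord with hn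
  have hnx : n ≤ x.toWord.length := lcp_le_left _ _
  have hny : n ≤ y.toWord.length := by
    have h1 := gprod_le_right hT x y
    rw [gpT, wlenT] at h1
    exact_mod_cast h1
  have htake : x.toWord.take n = y.toWord.take n := by
    have : ∀ (l m : List (Fin 3 × Bool)), l.take (lcp l m) = m.take (lcp l m) := by
      intro l
      induction l with
      | nil => intro m; simp [lcp_nil_left]
      | cons a l ih =>
        intro m
        cases m with
        | nil => simp [lcp_nil_right]
        | cons b m =>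
          rw [lcp_cons_cons]
          split
          · next hab => subst hab; simp [ih m]
          · simp
    exact this _ _
  have h1 : x = FreeGroup.mk (x.toWord.take n) * FreeGroup.mk (x.toWord.drop n) := by
    rw [mul_mk, List.take_append_drop, mk_toWord]
  have h2 : y = FreeGroup.mk (x.toWord.take n) * FreeGroup.mk (y.toWord.drop n) := by
    rw [htake, mul_mk, List.take_append_drop, mk_toWord]
  have h3 : x⁻¹ * y = FreeGroup.mk (invRev (x.toWord.drop n) ++ y.toWord.drop n) := by
    rw [← mul_mk, ← inv_mk]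
    conv_lhs => rw [h1, h2]
    group
  rw [h3, toWord_mk]
  apply List.Sublist.eq_of_length (Red.sublist reduce.red)
  have h4 := reduce_invRev_append x.toWord y.toWord isReduced_toWord isReduced_toWord
  have h5 : (reduce (invRev (x.toWord.drop n) ++ y.toWord.drop n)).length =
      (reduce (invRev x.toWord ++ y.toWord)).length := by
    rw [← toWord_mk, ← h3, toWord_mul, toWord_inv]
  rw [h5, List.length_append, invRev_length, List.length_drop, List.length_drop]
  omega

lemma on_path (x y : H) : x * FreeGroup.mk ((x⁻¹ * y).toWord.take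
      (x.toWord.length - lcp x.toWord y.toWord)) =
    FreeGroup.mk (x.toWord.take (lcp x.toWord y.toWord)) := by
  rw [toWord_inv_mul']
  set n := lcp x.toWord y.toWord with hn
  have e : (invRev (x.toWord.drop n) ++ y.toWord.drop n).take (x.toWord.length - n) =
      invRev (x.toWord.drop n) := by
    rw [List.take_append_of_le_length (by rw [invRev_length, List.length_drop])]
    apply List.take_of_length_le
    rw [invRev_length, List.length_drop]
  rw [e, ← inv_mk]
  have h1 : x = FreeGroup.mk (x.toWord.take n) * FreeGroup.mk (x.toWord.drop n) := by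
    rw [mul_mk, List.take_append_drop, mk_toWord]
  exact (eq_mul_inv_of_mul_eq h1.symm).symm

/-- In a tree with a geometric action of `H` the Gromov product of orbit points is at most a
multiple of the Gromov product in `H`. -/
theorem gromov_upper (hX : IsTree X) (hG : IsGeometric H X) (x₀ : X) :
    ∃ c₁ c₂ : ℝ, 0 < c₁ ∧ ∀ x y : H,
      gromovProd x₀ (x • x₀) (y • x₀) ≤ c₁ * lcp x.toWord y.toWord + c₂ := by
  obtain ⟨C, hC0, hC, hlip⟩ := orbit_lip hG x₀
  obtain ⟨κ, hκ, hlow⟩ := milnor_schwarz (T := T) hT hX.geodesic hG x₀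
  refine ⟨C + 1, C + C * ((4 * C + 2) / κ), by linarith, fun x y => ?_⟩
  set n := lcp x.toWord y.toWord with hn
  set w := x⁻¹ * y with hw
  set P : ℕ → X := fun i => (x * FreeGroup.mk (w.toWord.take i)) • x₀ with hP
  have hPd : ∀ i j, dist (P i) (P j) = dist x₀ (((FreeGroup.mk (w.toWord.take i))⁻¹ *
      FreeGroup.mk (w.toWord.take j)) • x₀) := by
    intro i j
    simp only [hP]
    rw [dist_smul_smul hG]
    congr 2
    group
  have h0 : P 0 = x • x₀ := by simp [hP, ← one_eq_mk]
  have hlast : P w.toWord.length = y • x₀ := by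
    simp only [hP, List.take_length, mk_toWord, hw, mul_inv_cancel_left]
  have hmid : P (x.toWord.length - n) = (FreeGroup.mk (x.toWord.take n)) • x₀ := by
    simp only [hP]
    rw [hw, hn, on_path]
  have hlen : x.toWord.length - n ≤ w.toWord.length := by
    rw [hw, toWord_inv_mul', List.length_append, invRev_length, List.length_drop]
    omega
  have hnb := no_backtrack hX.four_point P C κ 2 hC0 hκ (by norm_num) w.toWord.length
    (by
      intro i hi
      rw [hPd]
      apply hC
      have := wlen_take w (Nat.le_succ i) hi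
      change wlen T _ = _ at this
      rw [this]
      omega)
    (by
      intro i j hij hj
      rw [hPd]
      have h1 := hlow ((FreeGroup.mk (w.toWord.take i))⁻¹ * FreeGroup.mk (w.toWord.take j))
      have h2 := wlen_take w hij hj
      change wlen T _ = _ at h2
      rw [h2, Nat.cast_sub hij] at h1
      exact h1) (x.toWord.length - n) hlen
  rw [h0, hlast, hmid] at hnb
  set p := (FreeGroup.mk (x.toWord.take n)) • x₀ with hp
  have h1 : gromovProd x₀ (x • x₀) (y • x₀) ≤ gromovProd p (x • x₀) (y • x₀) + dist x₀ p := by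
    unfold gromovProd
    have a1 := dist_triangle (x • x₀) p x₀
    have a2 := dist_triangle (y • x₀) p x₀
    rw [dist_comm p x₀] at a1 a2
    linarith
  have h2 : dist x₀ p ≤ C * n := by
    have := hlip (FreeGroup.mk (x.toWord.take n))
    rw [wlenT, toWord_mk_of_take, List.length_take] at this
    refine this.trans ?_
    apply mul_le_mul_of_nonneg_left _ hC0
    exact_mod_cast min_le_left _ _
  have h3 : (0 : ℝ) ≤ n := Nat.cast_nonneg n
  linarith

/-- With respect to a visual metric the set of positive boundary words has positive Hausdorff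
dimension. -/
theorem dim_bp (hX : IsTree X) (hG : IsGeometric H X) (x₀ : X) (a : ℝ) (ha : 1 < a)
    (m : MetricSpace (Boundary T)) (hm : IsVisual T x₀ a m) :
    0 < hausdorffDim m (Set.range bp) := by
  obtain ⟨c₁, c₂, hc1, hc⟩ := gromov_upper hX hG x₀
  obtain ⟨C, hC0, hC⟩ := hm
  have ha0 : 0 < a := by linarith
  have hla : 0 < Real.log a := Real.log_pos ha
  set r : ℝ := Real.log 2 / (c₁ * Real.log a) with hr
  have hr0 : 0 < r := by
    have : 0 < Real.log 2 := Real.log_pos (by norm_num)
    positivity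
  have key := @dim_pos (Boundary T) m bp bp_inj ((C * a ^ c₂) ^ r) r (by positivity) hr0 ?_
  · refine lt_of_lt_of_le ?_ key
    exact ENNReal.ofReal_pos.2 hr0
  intro s t n h1 h2
  have hne : bp s ≠ bp t := fun h => h2 (congrFun (bp_inj h) n)
  obtain ⟨N, hN⟩ := hC (pw s) (pw t) (bp s) (bp t) (conv_bp s) (conv_bp t) hne
  have h3 := (hN (max N (n + 1)) (max N (n + 1)) (le_max_left _ _) (le_max_left _ _)).1
  have h4 := hc (pw s (max N (n + 1))) (pw t (max N (n + 1)))
  rw [lcp_pw h1 h2 (by omega) (by omega)] at h4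
  have h5 : a ^ (-(c₁ * n + c₂)) ≤ a ^ (-(gromovProd x₀ (pw s (max N (n + 1)) • x₀)
      (pw t (max N (n + 1)) • x₀))) :=
    Real.rpow_le_rpow_of_exponent_le ha.le (by linarith)
  set D := @dist (Boundary T) m.toDist (bp s) (bp t) with hD
  have h6 : a ^ (-(c₁ * (n : ℝ))) ≤ C * a ^ c₂ * D := by
    have e1 : a ^ (-(c₁ * (n : ℝ))) = a ^ c₂ * a ^ (-(c₁ * n + c₂)) := by
      rw [← Real.rpow_add ha0]; congr 1; ring
    rw [e1]
    have h7 : a ^ (-(c₁ * n + c₂)) ≤ C * D := by
      have h8 := mul_le_mul_of_nonneg_left (h5) (inv_nonneg.2 hC0.le)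
      have h9 : C⁻¹ * a ^ (-(c₁ * n + c₂)) ≤ D := h8.trans h3
      rwa [inv_mul_le_iff₀ hC0] at h9
    calc a ^ c₂ * a ^ (-(c₁ * n + c₂)) ≤ a ^ c₂ * (C * D) :=
          mul_le_mul_of_nonneg_left h7 (by positivity)
      _ = C * a ^ c₂ * D := by ring
  have hD0 : 0 ≤ D := @dist_nonneg _ m.toPseudoMetricSpace _ _
  rw [← Real.mul_rpow (by positivity) hD0]
  have e2 : ((2 : ℝ) ^ n)⁻¹ = (a ^ (-(c₁ * (n : ℝ)))) ^ r := by
    rw [← Real.rpow_mul ha0.le, ← Real.rpow_natCast, ← Real.rpow_neg (by norm_num),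
      Real.rpow_def_of_pos ha0, Real.rpow_def_of_pos (by norm_num : (0 : ℝ) < 2)]
    congr 1
    rw [hr]
    field_simp
  rw [e2]
  exact Real.rpow_le_rpow (by positivity) h6 hr0.le

end tree

end Pool.Agent.U627.CT
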