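import Mathlib
import Pool.Agent.H472R3.Hull
import Pool.Agent.U627.CT.Fibre

/-!
# Existence of a tree with a geometric action of `H` and of visual metrics
-/

set_option autoImplicit false

namespace Pool.Agent.U627.CT

open Filter Topology Pool.Agent.H322R3.Hyp Pool.Agent.R639.CT FreeGroup

/-- The word metric of the free group as data of a 0-hyperbolic distance. -/
noncomputable def hh : Pool.Agent.H472R3.Hull.Hyp H where
  d x y := wlen T (x⁻¹ * y)
  self x := by simp [wlen_one]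
  symm x y := by
    have : x⁻¹ * y = (y⁻¹ * x)⁻¹ := by group
    rw [this, wlen_inv hT]
  um a x y z := by
    have key : ∀ x y : H, ((wlen T (a⁻¹ * x) : ℝ) + wlen T (a⁻¹ * y) - wlen T (x⁻¹ * y)) / 2 =
        gprod T 1 (a⁻¹ * x) (a⁻¹ * y) := by
      intro x y
      rw [gprod_one hT]
      congr 4
      group
    rw [key x y, key y z, key x z]
    have := hyp0 (a⁻¹ * x) (a⁻¹ * y) (a⁻¹ * z)
    linarith

lemma hh_d (x y : H) : hh.d x y = wlen T (x⁻¹ * y) := rfl

lemma hh_inv (g x y : H) : hh.d (g * x) (g * y) = hh.d x y := by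
  rw [hh_d, hh_d, show (g * x)⁻¹ * (g * y) = x⁻¹ * y by group]

/-- The Cayley tree of `H`, as an `ℝ`-tree. -/
abbrev XX : Type := hh.Pt

lemma pt_mul (g a b : H) (t : ℝ) :
    (fun z => hh.pt a b t (g⁻¹ * z)) = hh.pt (g * a) (g * b) t := by
  have h := hh.pt_smul (Equiv.mulLeft g) (fun x y => hh_inv g x y) a b t
  simpa [Equiv.mulLeft] using h

noncomputable instance : MulAction H XX where
  smul g f := ⟨fun z => f.1 (g⁻¹ * z), by
    obtain ⟨f, a, b, t, h0, h1, rfl⟩ := f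
    exact ⟨g * a, g * b, t, h0, by rw [hh_inv]; exact h1, pt_mul g a b t⟩⟩
  one_smul f := Subtype.ext (funext fun z => by
    show f.1 ((1 : H)⁻¹ * z) = f.1 z
    simp)
  mul_smul g h f := Subtype.ext (funext fun z => by
    show f.1 ((g * h)⁻¹ * z) = f.1 (h⁻¹ * (g⁻¹ * z))
    rw [mul_inv_rev, mul_assoc])

lemma smul_fun (g : H) (f : XX) (z : H) : (g • f).1 z = f.1 (g⁻¹ * z) := rfl

lemma smul_v (g x : H) : g • (hh.v x : XX) = hh.v (g * x) := by
  apply Subtype.ext
  funext z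
  rw [smul_fun, hh.v_apply, hh.v_apply, hh_d, hh_d]
  congr 2
  group

lemma smul_dist' (g : H) (f f' : XX) : dist (g • f) (g • f') = dist f f' := by
  have key : ∀ (g : H) (f f' : XX), dist (g • f) (g • f') ≤ dist f f' := by
    intro g f f'
    obtain ⟨z, hz, -⟩ := hh.exists_dist (g • f) (g • f')
    rw [hz, smul_fun, smul_fun]
    exact hh.le_dist f f' _
  apply le_antisymm (key g f f')
  have := key g⁻¹ (g • f) (g • f')
  rwa [inv_smul_smul, inv_smul_smul] at this

lemma XX_tree : IsTree XX where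
  geodesic := hh.geodesic
  four_point w x y z := by
    have h := hh.four_point w y x z
    unfold gromovProd
    rcases le_total ((dist x w + dist y w - dist x y) / 2) ((dist y w + dist z w - dist y z) / 2)
      with h1 | h1
    · rw [min_eq_left h1]
      rw [dist_comm w y, dist_comm w x, dist_comm w z, dist_comm y x] at h
      rcases max_cases (dist x w + dist y z) (dist z w + dist x y) with h2 | h2 <;>
        rw [h2.1] at h <;> linarith
    · rw [min_eq_right h1]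
      rw [dist_comm w y, dist_comm w x, dist_comm w z, dist_comm y x] at h
      rcases max_cases (dist x w + dist y z) (dist z w + dist x y) with h2 | h2 <;>
        rw [h2.1] at h <;> linarith

/-- every point of the tree is close to a vertex -/
lemma near_vertex (f : XX) : ∃ g : H, dist f (hh.v g) ≤ 1 := by
  obtain ⟨x, t, h0, h1, rfl⟩ := hh.exists_P 1 f
  have hx : hh.d 1 x = wlen T x := by rw [hh_d]; simp
  have ht : (⌊t⌋₊ : ℝ) ≤ t := Nat.floor_le h0
  have ht2 : t < ⌊t⌋₊ + 1 := Nat.lt_floor_add_one t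
  have hk : ⌊t⌋₊ ≤ wlen T x := by
    have : (⌊t⌋₊ : ℝ) ≤ wlen T x := by linarith
    exact_mod_cast this
  obtain ⟨g, hg1, hg2⟩ := wlen_geod hT x ⌊t⌋₊ hk
  have hg : hh.d 1 g = ⌊t⌋₊ := by rw [hh_d]; simp [hg1]
  refine ⟨g, ?_⟩
  rw [hh.v_eq 1 g, hh.dist_P]
  have hgp : hh.gp 1 x g = ⌊t⌋₊ := by
    unfold Pool.Agent.H472R3.Hull.Hyp.gp
    rw [hx, hg, hh.symm x g, hh_d]
    have : (wlen T (g⁻¹ * x) : ℝ) + ⌊t⌋₊ = wlen T x := by exact_mod_cast hg2
    linarith
  rw [hgp, hg, min_eq_right ht, min_self]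
  linarith

lemma XX_geom : IsGeometric H XX where
  isometric := smul_dist'
  proper x r := by
    obtain ⟨g, hg⟩ := near_vertex x
    -- `dist (v g) (h • v g) ≤ r + 2`
    obtain ⟨n, hn⟩ := exists_nat_ge (r + 2 + 2 * wlen T g)
    apply (ball_finite hT hTfin n).subset
    intro h hh'
    have hh1 : dist x (h • x) ≤ r := hh'
    have h1 := dist_triangle4 (hh.v g) x (h • x) (h • (hh.v g : XX))
    rw [smul_dist', dist_comm (hh.v g) x] at h1
    rw [smul_v, hh.dist_v, hh_d] at h1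
    have h2 : (wlen T h : ℝ) ≤ wlen T (g⁻¹ * (h * g)) + 2 * wlen T g := by
      have a1 := wlen_mul_le hT (g * (g⁻¹ * (h * g))) g⁻¹
      have a2 := wlen_mul_le hT g (g⁻¹ * (h * g))
      rw [wlen_inv hT] at a1
      have e : g * (g⁻¹ * (h * g)) * g⁻¹ = h := by group
      rw [e] at a1
      have : wlen T h ≤ wlen T (g⁻¹ * (h * g)) + 2 * wlen T g := by omega
      exact_mod_cast this
    have h3 : (wlen T h : ℝ) ≤ n := by linarith
    exact_mod_cast h3
  cobounded x := by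
    obtain ⟨g, hg⟩ := near_vertex x
    refine ⟨2, fun y => ?_⟩
    obtain ⟨g', hg'⟩ := near_vertex y
    refine ⟨g' * g⁻¹, ?_⟩
    have h1 := dist_triangle y (hh.v g') ((g' * g⁻¹) • x)
    have h2 : dist (hh.v g') ((g' * g⁻¹) • x) = dist x (hh.v g) := by
      have e : (hh.v g' : XX) = (g' * g⁻¹) • hh.v g := by rw [smul_v]; congr 1; group
      rw [e, smul_dist', dist_comm]
    linarith

/-! ### the metric on the boundary -/

lemma bnhd_symm {ξ η : Boundary T} {r : ℝ} (h : η ∈ bnhd T ξ r) : ξ ∈ bnhd T η r := by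
  obtain ⟨x, y, hx, hy, N, hN⟩ := h
  refine ⟨y, x, hy, hx, N, fun i j hi hj => ?_⟩
  rw [gprod_symm hT]
  exact hN j i hj hi

/-- The Gromov product of two boundary points. -/
noncomputable def cr (ξ η : Boundary T) : ℕ := sSup {k : ℕ | η ∈ bnhd T ξ k}

lemma cr_bdd {ξ η : Boundary T} (h : ξ ≠ η) : BddAbove {k : ℕ | η ∈ bnhd T ξ k} := by
  obtain ⟨R, hR⟩ := exists_not_bnhd (ξ := η) (b := ξ) (Ne.symm h)
  obtain ⟨n, hn⟩ := exists_nat_ge R
  refine ⟨n, fun k hk => ?_⟩
  by_contra hcon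
  push Not at hcon
  apply hR
  apply bnhd_anti T ξ _ hk
  have : (n : ℝ) ≤ k := by exact_mod_cast hcon.le
  linarith

lemma cr_iff {ξ η : Boundary T} (h : ξ ≠ η) (k : ℕ) : k ≤ cr ξ η ↔ η ∈ bnhd T ξ k := by
  constructor
  · intro hk
    have h0 : {k : ℕ | η ∈ bnhd T ξ k}.Nonempty := by
      refine ⟨0, ?_⟩
      obtain ⟨x, rfl⟩ : ∃ x : InfSeq T, bmk T x = ξ := Quot.exists_rep ξ
      obtain ⟨y, rfl⟩ : ∃ x : InfSeq T, bmk T x = η := Quot.exists_rep η
      refine ⟨x, y, rfl, rfl, 0, fun i j _ _ => ?_⟩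
      simpa using gprod_nonneg hT _ _
    have h1 : cr ξ η ∈ {k : ℕ | η ∈ bnhd T ξ k} := Nat.sSup_mem h0 (cr_bdd h)
    have h2 : η ∈ bnhd T ξ (cr ξ η) := h1
    exact bnhd_anti T ξ (by exact_mod_cast hk) h2
  · intro hk
    exact le_csSup (cr_bdd h) hk

lemma cr_symm (ξ η : Boundary T) : cr ξ η = cr η ξ := by
  unfold cr
  congr 1
  ext k
  exact ⟨bnhd_symm, bnhd_symm⟩

lemma cr_ultra {ξ η ζ : Boundary T} (h1 : ξ ≠ η) (h2 : η ≠ ζ) (h3 : ξ ≠ ζ) :
    min (cr ξ η) (cr η ζ) ≤ cr ξ ζ := by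
  rw [cr_iff h3]
  have a1 := (cr_iff h1 (min (cr ξ η) (cr η ζ))).1 (min_le_left _ _)
  have a2 := (cr_iff h2 (min (cr ξ η) (cr η ζ))).1 (min_le_right _ _)
  have := bnhd_trans hT h00 hyp0 a1 a2
  simpa using this

lemma cr_conv {ξ η : Boundary T} (h : ξ ≠ η) {x y : ℕ → H} (hx : ConvTo T x ξ)
    (hy : ConvTo T y η) : ∃ N, ∀ i j, N ≤ i → N ≤ j → gprod T 1 (x i) (y j) = cr ξ η := by
  obtain ⟨N1, hN1⟩ := hx.tendsto hT h00 hyp0 hx (cr ξ η + 1)
  obtain ⟨N2, hN2⟩ := hy.tendsto hT h00 hyp0 hy (cr ξ η + 1)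
  obtain ⟨x', rfl, hx2⟩ := hx
  obtain ⟨y', rfl, hy2⟩ := hy
  obtain ⟨N3, hN3⟩ := bnhd_reps hT h00 hyp0 ((cr_iff h _).1 le_rfl) x' y' hx2 hy2
  refine ⟨max N1 (max N2 N3), fun i j hi hj => ?_⟩
  have i1 : N1 ≤ i := (le_max_left _ _).trans hi
  have i3 : N3 ≤ i := (le_max_right _ _).trans ((le_max_right _ _).trans hi)
  have j2 : N2 ≤ j := (le_max_left _ _).trans ((le_max_right _ _).trans hj)
  have j3 : N3 ≤ j := (le_max_right _ _).trans ((le_max_right _ _).trans hj)
  have h1 := hN3 i j i3 j3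
  by_contra hne
  have h2 : ((cr ξ η + 1 : ℕ) : ℝ) ≤ gprod T 1 (x'.1 i) (y'.1 j) := by
    rw [gpT] at h1 hne ⊢
    have h1' : (cr ξ η : ℝ) ≤ lcp (x'.1 i).toWord (y'.1 j).toWord := by linarith
    have h1'' : cr ξ η ≤ lcp (x'.1 i).toWord (y'.1 j).toWord := by exact_mod_cast h1'
    have hne' : lcp (x'.1 i).toWord (y'.1 j).toWord ≠ cr ξ η := fun h => hne (by rw [h])
    have : cr ξ η + 1 ≤ lcp (x'.1 i).toWord (y'.1 j).toWord := by omega
    exact_mod_cast this
  have h3 : cr ξ η + 1 ≤ cr ξ η := by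
    rw [cr_iff h]
    refine ⟨x', y', hx2, hy2, max N1 N2, fun i' j' hi' hj' => ?_⟩
    have := hyp4 h00 hyp0 (M := ((cr ξ η + 1 : ℕ) : ℝ))
      (by have := hN1 i' i ((le_max_left _ _).trans hi') i1; push_cast; exact this) h2
      (by have := hN2 j j' j2 ((le_max_right _ _).trans hj'); push_cast; exact this)
    linarith
  omega

/-- The metric `a ^ (-(ξ | η))` on the boundary. -/
noncomputable def visMetric (a : ℝ) (ha : 1 < a) : MetricSpace (Boundary T) :=
  letI := Classical.decEq (Boundary T)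
  { dist := fun ξ η => if ξ = η then 0 else a ^ (-(cr ξ η : ℝ))
    dist_self := fun ξ => by simp
    dist_comm := fun ξ η => by
      by_cases h : ξ = η
      · subst h; rfl
      · show (if ξ = η then 0 else a ^ (-(cr ξ η : ℝ))) =
          (if η = ξ then 0 else a ^ (-(cr η ξ : ℝ)))
        rw [if_neg h, if_neg (Ne.symm h), cr_symm]
    dist_triangle := fun ξ η ζ => by
      have hpos : ∀ t : ℝ, 0 < a ^ t := fun t => Real.rpow_pos_of_pos (by linarith) t
      show (if ξ = ζ then 0 else a ^ (-(cr ξ ζ : ℝ))) ≤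
        (if ξ = η then 0 else a ^ (-(cr ξ η : ℝ))) + (if η = ζ then 0 else a ^ (-(cr η ζ : ℝ)))
      by_cases h1 : ξ = η
      · subst h1; simp
      by_cases h2 : η = ζ
      · subst h2; simp
      rw [if_neg h1, if_neg h2]
      by_cases h3 : ξ = ζ
      · rw [if_pos h3]
        have := hpos (-(cr ξ η : ℝ))
        have := hpos (-(cr η ζ : ℝ))
        linarith
      rw [if_neg h3]
      have h4 := cr_ultra h1 h2 h3
      rcases min_le_iff.1 h4 with h5 | h5
      · have h6 : a ^ (-(cr ξ ζ : ℝ)) ≤ a ^ (-(cr ξ η : ℝ)) := by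
          apply Real.rpow_le_rpow_of_exponent_le ha.le
          have : (cr ξ η : ℝ) ≤ cr ξ ζ := by exact_mod_cast h5
          linarith
        have := hpos (-(cr η ζ : ℝ))
        linarith
      · have h6 : a ^ (-(cr ξ ζ : ℝ)) ≤ a ^ (-(cr η ζ : ℝ)) := by
          apply Real.rpow_le_rpow_of_exponent_le ha.le
          have : (cr η ζ : ℝ) ≤ cr ξ ζ := by exact_mod_cast h5
          linarith
        have := hpos (-(cr ξ η : ℝ))
        linarith
    eq_of_dist_eq_zero := by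
      intro ξ η h
      by_contra hne
      have h' : (if ξ = η then 0 else a ^ (-(cr ξ η : ℝ))) = 0 := h
      rw [if_neg hne] at h'
      have : 0 < a ^ (-(cr ξ η : ℝ)) := Real.rpow_pos_of_pos (by linarith) _
      linarith }

lemma visMetric_dist (a : ℝ) (ha : 1 < a) {ξ η : Boundary T} (h : ξ ≠ η) :
    @dist _ (visMetric a ha).toDist ξ η = a ^ (-(cr ξ η : ℝ)) := by
  show (@ite _ _ (Classical.decEq (Boundary T) ξ η) _ _) = _
  rw [if_neg h]

lemma gromov_v (x y : H) : gromovProd (hh.v 1 : XX) (hh.v x) (hh.v y) = gprod T 1 x y := by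
  unfold gromovProd
  rw [hh.dist_v, hh.dist_v, hh.dist_v, hh_d, hh_d, hh_d, gprod_one hT, mul_one, mul_one,
    wlen_inv hT, wlen_inv hT]

/-- The metric `a ^ (-(ξ | η))` is a visual metric of the Cayley tree, for every base point. -/
theorem visMetric_visual (a : ℝ) (ha : 1 < a) (x₀ : XX) : IsVisual T x₀ a (visMetric a ha) := by
  have ha0 : 0 < a := by linarith
  set D := dist x₀ (hh.v 1) with hD
  refine ⟨a ^ (3 * D), Real.rpow_pos_of_pos ha0 _, ?_⟩
  intro x y ξ η hx hy hne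
  obtain ⟨N, hN⟩ := cr_conv hne hx hy
  refine ⟨N, fun i j hi hj => ?_⟩
  have h1 := hN i j hi hj
  rw [visMetric_dist a ha hne]
  have hxx : dist (x i • x₀) (hh.v (x i)) = D := by
    have : (hh.v (x i) : XX) = x i • hh.v 1 := by rw [smul_v, mul_one]
    rw [this, smul_dist']
  have hyy : dist (y j • x₀) (hh.v (y j)) = D := by
    have : (hh.v (y j) : XX) = y j • hh.v 1 := by rw [smul_v, mul_one]
    rw [this, smul_dist']
  have h2 := gromov_v (x i) (y j)
  rw [h1] at h2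
  have h3 : gromovProd x₀ (x i • x₀) (y j • x₀) ≤ cr ξ η + 3 * D ∧
      (cr ξ η : ℝ) ≤ gromovProd x₀ (x i • x₀) (y j • x₀) + 3 * D := by
    rw [← h2]
    unfold gromovProd
    have b1 := dist_triangle4 (x i • x₀) (hh.v (x i)) (hh.v 1) x₀
    have b2 := dist_triangle4 (y j • x₀) (hh.v (y j)) (hh.v 1) x₀
    have b3 := dist_triangle4 (hh.v (x i)) (x i • x₀) (y j • x₀) (hh.v (y j))
    have b4 := dist_triangle4 (hh.v (x i)) (x i • x₀) x₀ (hh.v 1)
    have b5 := dist_triangle4 (hh.v (y j)) (y j • x₀) x₀ (hh.v 1)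
    have b6 := dist_triangle4 (x i • x₀) (hh.v (x i)) (hh.v (y j)) (y j • x₀)
    rw [dist_comm (hh.v 1) x₀] at b1 b2
    rw [dist_comm (hh.v (x i)) (x i • x₀)] at b3 b4
    rw [dist_comm (hh.v (y j)) (y j • x₀)] at b5 b6
    constructor <;> linarith
  constructor
  · rw [← Real.rpow_neg ha0.le, ← Real.rpow_add ha0]
    apply Real.rpow_le_rpow_of_exponent_le ha.le
    linarith [h3.2, h3.1]
  · rw [← Real.rpow_add ha0]
    apply Real.rpow_le_rpow_of_exponent_le ha.le
    linarith [h3.2, h3.1]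

end Pool.Agent.U627.CT
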