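import Mathlib
import Pool.Agent.U627.CT.Exist

/-!
# The Cayley tree is a proper metric space
-/

set_option autoImplicit false

namespace Pool.Agent.U627.CT

open Filter Topology Pool.Agent.H322R3.Hyp Pool.Agent.R639.CT FreeGroup

/-- the segment from the base vertex to the vertex `x` -/
noncomputable def seg (x : H) (t : ℝ) : XX :=
  hh.P 1 x (max 0 (min t (hh.d 1 x))) (le_max_left _ _)
    (max_le (hh.d_nonneg _ _) (min_le_right _ _))

lemma seg_lip (x : H) : LipschitzWith 1 (seg x) := by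
  apply LipschitzWith.of_dist_le_mul
  intro s t
  unfold seg
  rw [hh.dist_P, hh.gp_self]
  set A := max 0 (min s (hh.d 1 x)) with hA
  set B := max 0 (min t (hh.d 1 x)) with hB
  have hA1 : A ≤ hh.d 1 x := max_le (hh.d_nonneg _ _) (min_le_right _ _)
  have hAB : min (min A B) (hh.d 1 x) = min A B := min_eq_left ((min_le_left _ _).trans hA1)
  rw [hAB]
  have h1 : A + B - 2 * min A B = |A - B| := by
    rcases le_total A B with h | h
    · rw [min_eq_left h, abs_sub_comm, abs_of_nonneg (by linarith)]; ring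
    · rw [min_eq_right h, abs_of_nonneg (by linarith)]; ring
  rw [h1, NNReal.coe_one, one_mul, Real.dist_eq, hA, hB]
  have h2 := abs_max_sub_max_le_abs (min s (hh.d 1 x)) (min t (hh.d 1 x)) 0
  rw [max_comm, max_comm (min t (hh.d 1 x))] at h2
  refine h2.trans ?_
  have h3 := abs_min_sub_min_le_max s (hh.d 1 x) t (hh.d 1 x)
  rw [sub_self, abs_zero, max_eq_left (abs_nonneg _)] at h3
  exact h3

lemma ball_sub (n : ℕ) : Metric.closedBall (hh.v 1 : XX) n ⊆
    ⋃ x ∈ {x : H | wlen T x ≤ n}, seg x '' Set.Icc (0 : ℝ) n := by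
  intro f hf
  obtain ⟨x, t, h0, h1, rfl⟩ := hh.exists_P 1 f
  rw [Metric.mem_closedBall, hh.v_eq' 1 x, hh.dist_P] at hf
  have htn : t ≤ n := by
    have : min (min t 0) (hh.gp 1 x x) ≤ 0 := (min_le_left _ _).trans (min_le_right _ _)
    linarith
  have hx : hh.d 1 x = wlen T x := by rw [hh_d]; simp
  have hkn : ⌈t⌉₊ ≤ n := Nat.ceil_le.2 htn
  have hk : ⌈t⌉₊ ≤ wlen T x := Nat.ceil_le.2 (by rw [← hx]; exact h1)
  obtain ⟨g, hg1, hg2⟩ := wlen_geod hT x ⌈t⌉₊ hk
  have hg : hh.d 1 g = ⌈t⌉₊ := by rw [hh_d]; simp [hg1]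
  have hgp : hh.gp 1 x g = ⌈t⌉₊ := by
    unfold Pool.Agent.H472R3.Hull.Hyp.gp
    rw [hx, hg, hh.symm x g, hh_d]
    have : (wlen T (g⁻¹ * x) : ℝ) + ⌈t⌉₊ = wlen T x := by exact_mod_cast hg2
    linarith
  have htc : t ≤ ⌈t⌉₊ := Nat.le_ceil t
  rw [Set.mem_iUnion₂]
  refine ⟨g, ?_, t, ⟨h0, htn⟩, ?_⟩
  · show wlen T g ≤ n
    omega
  · apply Subtype.ext
    show hh.pt 1 g (max 0 (min t (hh.d 1 g))) = hh.pt 1 x t
    rw [hg, min_eq_left htc, max_eq_right h0]
    rw [hh.pt_change 1 x g (by rw [hgp]; exact htc)]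

noncomputable instance : ProperSpace XX := by
  constructor
  intro f r
  obtain ⟨n, hn⟩ := exists_nat_ge (r + dist f (hh.v 1))
  have h1 : IsCompact (⋃ x ∈ {x : H | wlen T x ≤ n}, seg x '' Set.Icc (0 : ℝ) n) :=
    (ball_finite hT hTfin n).isCompact_biUnion
      (fun x _ => isCompact_Icc.image (seg_lip x).continuous)
  apply h1.of_isClosed_subset Metric.isClosed_closedBall
  refine Set.Subset.trans ?_ (ball_sub n)
  intro g hg
  rw [Metric.mem_closedBall] at hg ⊢
  have := dist_triangle g f (hh.v 1)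
  linarith

end Pool.Agent.U627.CT
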